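import Pool.Agent.Helper35.EM.Stm

/-! Reduction of the rank condition of `Base` to coordinates. -/

set_option autoImplicit false

namespace Pool.Agent.Helper56.EM

open Pool.Agent.Helper35.EM Module Submodule

/-- the pair with coordinates `c` -/
noncomputable abbrev T {k : ℕ} (v : Fin k → ℂ × ℂ) : (Fin k → ℚ) →ₗ[ℚ] ℂ × ℂ :=
  Fintype.linearCombination ℚ v

theorem T_apply {k : ℕ} (v : Fin k → ℂ × ℂ) (c : Fin k → ℚ) : T v c = ∑ i, c i • v i :=
  Fintype.linearCombination_apply ℚ v c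

theorem range_T {k : ℕ} (v : Fin k → ℂ × ℂ) : LinearMap.range (T v) = span ℚ (Set.range v) :=
  Fintype.range_linearCombination ℚ v

theorem cl_sum {ι : Type*} {s : Set ℂ} (S : Finset ι) (f : ι → ℂ)
    (h : ∀ i ∈ S, f i ∈ M.closure s) : ∑ i ∈ S, f i ∈ M.closure s := by
  simp only [mem_cl] at *
  exact sum_mem h

theorem cl_exp_sum {ι : Type*} {s : Set ℂ} (S : Finset ι) (f : ι → ℂ)
    (h : ∀ i ∈ S, Complex.exp (f i) ∈ M.closure s) : Complex.exp (∑ i ∈ S, f i) ∈ M.closure s := by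
  rw [Complex.exp_sum]
  simp only [mem_cl] at *
  exact prod_mem h

theorem base_of {k : ℕ} (v : Fin k → ℂ × ℂ) (s : Set ℂ) (h1 : ∀ i, (v i).1 ∈ M.closure s)
    (h2 : ∀ i, Complex.exp (v i).2 ∈ M.closure s)
    (i1 : ∀ c : Fin k → ℚ, (T v c).1 = 0 → c = 0) (i2 : ∀ c : Fin k → ℚ, (T v c).2 = 0 → c = 0)
    (hr : ∀ U : Submodule ℚ (Fin k → ℚ), finrank ℚ U < k →
      (finrank ℚ U : ℕ∞) ≤ M.eRk (co (U.map (T v)))) :
    Base (span ℚ (Set.range v)) (span ℚ (Set.range v)) s := by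
  have hmem : ∀ p ∈ span ℚ (Set.range v), ∃ c, T v c = p := by
    intro p hp
    rw [← range_T] at hp
    exact hp
  have hinj : Function.Injective (T v) := by
    rw [← LinearMap.ker_eq_bot, LinearMap.ker_eq_bot']
    intro c hc
    apply i1
    rw [hc]; rfl
  refine ⟨FiniteDimensional.span_of_finite ℚ (Set.finite_range v), le_rfl, ?_, ?_, ?_, ?_, ?_⟩
  · intro p hp
    obtain ⟨c, rfl⟩ := hmem p hp
    rw [T_apply, Prod.fst_sum]
    exact cl_sum _ _ fun i _ => cl_smul (c i) (h1 i)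
  · intro p hp
    obtain ⟨c, rfl⟩ := hmem p hp
    rw [T_apply, Prod.snd_sum]
    exact cl_exp_sum _ _ fun i _ => cl_exp_smul (c i) (h2 i)
  · intro p hp h0
    obtain ⟨c, rfl⟩ := hmem p hp
    rw [i1 c h0, map_zero]
  · intro p hp h0
    obtain ⟨c, rfl⟩ := hmem p hp
    rw [i2 c h0, map_zero]
  · intro U hU hn
    have e1 : (U.comap (T v)).map (T v) = U := by
      rw [Submodule.map_comap_eq, range_T, inf_eq_right.2 hU]
    have e2 : finrank ℚ (U.comap (T v)) = finrank ℚ U := by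
      conv_rhs => rw [← e1]
      exact (LinearEquiv.finrank_eq (Submodule.equivMapOfInjective (T v) hinj _))
    have e3 : finrank ℚ (U.comap (T v)) < k := by
      by_contra hk
      have h3 : finrank ℚ (U.comap (T v)) = finrank ℚ (Fin k → ℚ) := by
        have := Submodule.finrank_le (U.comap (T v))
        rw [finrank_fin_fun] at this ⊢
        omega
      have h4 := Submodule.eq_top_of_finrank_eq h3
      apply hn
      rw [← e1, h4, Submodule.map_top, range_T]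
    have := hr _ e3
    rwa [e1, e2] at this

/-- a pivot -/
theorem piv {k : ℕ} (U : Submodule ℚ (Fin k → ℚ)) (i : Fin k) :
    (∀ u ∈ U, u i = 0) ∨ ((∃ u ∈ U, u i = 1) ∧
      finrank ℚ U = finrank ℚ (U ⊓ LinearMap.ker (LinearMap.proj (R := ℚ) (φ := fun _ : Fin k => ℚ) i) :
        Submodule ℚ (Fin k → ℚ)) + 1) := by
  by_cases h : ∀ u ∈ U, u i = 0
  · exact Or.inl h
  · right
    push Not at h
    obtain ⟨u, hu, hui⟩ := h
    refine ⟨⟨(u i)⁻¹ • u, U.smul_mem _ hu, by simp [hui]⟩, ?_⟩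
    set f : (Fin k → ℚ) →ₗ[ℚ] ℚ := LinearMap.proj (R := ℚ) (φ := fun _ : Fin k => ℚ) i with hf
    have h1 := LinearMap.finrank_range_add_finrank_ker (f.domRestrict U)
    have h2 : LinearMap.range (f.domRestrict U) = ⊤ := by
      rw [LinearMap.range_eq_top]
      intro q
      refine ⟨⟨(q * (u i)⁻¹) • u, U.smul_mem _ hu⟩, ?_⟩
      change (q * (u i)⁻¹) * u i = q
      rw [mul_assoc, inv_mul_cancel₀ hui, mul_one]
    have h3 : finrank ℚ (LinearMap.ker (f.domRestrict U)) =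
        finrank ℚ (U ⊓ LinearMap.ker f : Submodule ℚ (Fin k → ℚ)) := by
      have e : (LinearMap.ker (f.domRestrict U)).map U.subtype = U ⊓ LinearMap.ker f := by
        ext w
        constructor
        · rintro ⟨w, hw, rfl⟩
          exact ⟨w.2, hw⟩
        · rintro ⟨hw1, hw2⟩
          exact ⟨⟨w, hw1⟩, hw2, rfl⟩
      rw [← e]
      exact (LinearEquiv.finrank_eq (Submodule.equivMapOfInjective _ U.injective_subtype _))
    rw [h2, finrank_top, finrank_self, h3] at h1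
    omega

theorem finrank_bot_of {k : ℕ} (U : Submodule ℚ (Fin k → ℚ)) (h : ∀ u ∈ U, u = 0) :
    finrank ℚ U = 0 := by
  have : U = ⊥ := by
    rw [eq_bot_iff]
    intro u hu
    exact h u hu
  rw [this]
  exact finrank_bot ℚ _

theorem finrank_ker0 {k : ℕ} (U : Submodule ℚ (Fin k → ℚ)) (i : Fin k)
    (h : ∀ u ∈ U, u i = 0 → u = 0) :
    finrank ℚ (U ⊓ LinearMap.ker (LinearMap.proj (R := ℚ) (φ := fun _ : Fin k => ℚ) i) :
        Submodule ℚ (Fin k → ℚ)) = 0 :=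
  finrank_bot_of _ fun u hu => h u hu.1 hu.2

theorem co_fst {k : ℕ} {v : Fin k → ℂ × ℂ} {U : Submodule ℚ (Fin k → ℚ)} {c : Fin k → ℚ}
    (hc : c ∈ U) : (T v c).1 ∈ co (U.map (T v)) :=
  ⟨T v c, ⟨c, hc, rfl⟩, Or.inl rfl⟩

theorem co_exp {k : ℕ} {v : Fin k → ℂ × ℂ} {U : Submodule ℚ (Fin k → ℚ)} {c : Fin k → ℚ}
    (hc : c ∈ U) : Complex.exp (T v c).2 ∈ co (U.map (T v)) :=
  ⟨T v c, ⟨c, hc, rfl⟩, Or.inr rfl⟩

end Pool.Agent.Helper56.EM
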