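import Pool.Agent.Helper56.EM.Red

/-! The base for `pi ^ pi`. -/

set_option autoImplicit false

namespace Pool.Agent.Helper56.EM

open Pool.Agent.Helper35.EM Module Submodule Complex

theorem lin1 {s : Set ℂ} {x p q : ℂ} (hx : x ∉ M.closure s) (hp : p ∈ M.closure s)
    (hq : q ∈ M.closure s) (h : p * x + q ∈ M.closure s) : p = 0 := by
  by_contra hp0
  apply hx
  have h1 := cl_div (cl_sub h hq) hp
  rwa [add_sub_cancel_right, mul_div_cancel_left₀ _ hp0] at h1

theorem cl_zero (s : Set ℂ) : (0 : ℂ) ∈ M.closure s := by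
  simpa using cl_ratCast s 0

theorem cl_one (s : Set ℂ) : (1 : ℂ) ∈ M.closure s := by
  simpa using cl_ratCast s 1

theorem cl_two (s : Set ℂ) : (2 : ℂ) ∈ M.closure s := by
  simpa using cl_ratCast s 2

theorem cl_empty_le {s : Set ℂ} {x : ℂ} (h : x ∈ M.closure ∅) : x ∈ M.closure s :=
  cl_mono (Set.empty_subset s) h

theorem ne_zero_of {s : Set ℂ} {x : ℂ} (h : x ∉ M.closure s) : x ≠ 0 := by
  rintro rfl; exact h (cl_zero s)

/-- a rational combination of `1` and `x` vanishes only trivially -/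
theorem lin0 {s : Set ℂ} {x : ℂ} (hx : x ∉ M.closure s) {p q : ℚ} (h : (p : ℂ) + q * x = 0) :
    p = 0 ∧ q = 0 := by
  have h1 : (q : ℂ) = 0 := lin1 hx (cl_ratCast s q) (cl_ratCast s p) (by
    rw [add_comm, h]; exact cl_zero s)
  have h2 : q = 0 := by exact_mod_cast h1
  subst h2
  rw [Rat.cast_zero, zero_mul, add_zero] at h
  exact ⟨by exact_mod_cast h, rfl⟩

/-- `log |C| ≠ 0` -/
theorem re_ne_zero {L : ℂ} {C : ℚ} (h : exp L = C) (h1 : C ≠ 1) (h2 : C ≠ -1) : L.re ≠ 0 := by
  intro h0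
  have h3 : ‖exp L‖ = 1 := by rw [Complex.norm_exp, h0, Real.exp_zero]
  rw [h] at h3
  have h4 : |(C : ℝ)| = 1 := by
    rw [← h3]
    rw [show ((C : ℚ) : ℂ) = ((C : ℝ) : ℂ) by push_cast; rfl, Complex.norm_real, Real.norm_eq_abs]
  rcases (abs_eq (zero_le_one)).1 h4 with h5 | h5
  · exact h1 (by exact_mod_cast h5)
  · exact h2 (by exact_mod_cast h5)

/-- a rational combination of `L` and `2 π I` -/
theorem log_indep {L : ℂ} {C : ℚ} (h : exp L = C) (h1 : C ≠ 1) (h2 : C ≠ -1) {y z : ℚ}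
    (h0 : (y : ℂ) * L + z * (2 * Real.pi * I) = 0) : y = 0 ∧ z = 0 := by
  have hre := congrArg Complex.re h0
  have e1 : ((y : ℂ) * L).re = y * L.re := by
    rw [show ((y : ℚ) : ℂ) = ((y : ℝ) : ℂ) by push_cast; rfl, Complex.re_ofReal_mul]
  have e2 : ((z : ℂ) * (2 * Real.pi * I)).re = 0 := by
    rw [show ((z : ℚ) : ℂ) * (2 * Real.pi * I) = (((z : ℝ) * (2 * Real.pi) : ℝ) : ℂ) * I by
      push_cast; ring]
    rw [Complex.re_ofReal_mul, Complex.I_re, mul_zero]
  rw [Complex.add_re, e1, e2, add_zero, Complex.zero_re] at hre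
  have hy : y = 0 := by
    rcases mul_eq_zero.1 hre with h3 | h3
    · exact_mod_cast h3
    · exact absurd h3 (re_ne_zero h h1 h2)
  subst hy
  refine ⟨rfl, ?_⟩
  rw [Rat.cast_zero, zero_mul, zero_add] at h0
  rcases mul_eq_zero.1 h0 with h3 | h3
  · exact_mod_cast h3
  · exact absurd h3 Complex.two_pi_I_ne_zero

theorem cl_exp_rat {s : Set ℂ} {L : ℂ} {C : ℚ} (h : exp L = C) (q : ℚ) :
    exp ((q : ℂ) * L) ∈ M.closure s := by
  have := cl_exp_smul (s := s) (z := L) q (by rw [h]; exact cl_ratCast s C)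
  rwa [Rat.smul_def] at this

theorem cl_exp_pi {s : Set ℂ} (q : ℚ) : exp ((q : ℂ) * (2 * Real.pi * I)) ∈ M.closure s := by
  have := cl_exp_smul (s := s) q (cl_exp_two_pi_I s)
  rwa [Rat.smul_def] at this

theorem exp_coef {s : Set ℂ} {L w a : ℂ} (hL : exp L = a) (ha : a ∉ M.closure s) {q : ℚ}
    (hw : exp w ∈ M.closure s) (h : exp ((q : ℂ) * L + w) ∈ M.closure s) : q = 0 := by
  by_contra hq
  have h1 := cl_exp_of_smul_add (z := L) hq (by rw [Rat.smul_def]; exact h) hw
  rw [hL] at h1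
  exact ha h1

theorem b3 : S_B3 := by
  intro a b La LC C ha hb hLa hLC hC0 hC1 hC2 P hP
  have hba : ∀ x : ℂ, x ∈ M.closure ∅ → x ∈ M.closure {a} := fun x hx => cl_empty_le hx
  have ha0 : a ≠ 0 := ne_zero_of ha
  have hacl : a ∈ M.closure {a} := cl_self rfl
  have hv : P = span ℚ (Set.range ![(b, La), (a * b, LC), (2 * I * a, 2 * Real.pi * I)]) := by
    rw [hP]
    congr 1
    ext p
    simp only [Set.mem_insert_iff, Set.mem_singleton_iff, Matrix.range_cons, Matrix.range_empty,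
      Set.union_empty, Set.singleton_union]
  obtain ⟨v, hvdef⟩ : ∃ v : Fin 3 → ℂ × ℂ,
      v = ![(b, La), (a * b, LC), (2 * I * a, 2 * Real.pi * I)] := ⟨_, rfl⟩
  rw [← hvdef] at hv
  have hf : ∀ c : Fin 3 → ℚ, (T v c).1 = ((c 0 : ℂ) + (c 1 : ℂ) * a) * b + (c 2 : ℂ) * (2 * I * a) := by
    intro c
    rw [T_apply, Fin.sum_univ_three, hvdef]
    simp only [Matrix.cons_val_zero, Matrix.cons_val_one, Matrix.cons_val_two, Prod.fst_add,
      Prod.smul_fst, Rat.smul_def, Matrix.tail_cons, Matrix.head_cons]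
    ring
  have hs : ∀ c : Fin 3 → ℚ, (T v c).2 = (c 0 : ℂ) * La + ((c 1 : ℂ) * LC +
      (c 2 : ℂ) * (2 * Real.pi * I)) := by
    intro c
    rw [T_apply, Fin.sum_univ_three, hvdef]
    simp only [Matrix.cons_val_zero, Matrix.cons_val_one, Matrix.cons_val_two, Prod.snd_add,
      Prod.smul_snd, Rat.smul_def, Matrix.tail_cons, Matrix.head_cons]
    ring
  have hw : ∀ (s : Set ℂ) (c : Fin 3 → ℚ), exp ((c 1 : ℂ) * LC + (c 2 : ℂ) * (2 * Real.pi * I)) ∈
      M.closure s := fun s c => cl_exp_add (cl_exp_rat hLC _) (cl_exp_pi _)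
  have hq : ∀ (q : ℚ), (q : ℂ) * (2 * I * a) ∈ M.closure {a} := fun q =>
    cl_mul (cl_ratCast _ _) (cl_mul (cl_mul (cl_two _) (cl_I _)) hacl)
  have hqa : ∀ (p q : ℚ), (p : ℂ) + (q : ℂ) * a ∈ M.closure {a} := fun p q =>
    cl_add (cl_ratCast _ _) (cl_mul (cl_ratCast _ _) hacl)
  -- the first coordinate determines everything
  have hfc : ∀ c : Fin 3 → ℚ, (T v c).1 ∈ M.closure {a} → c 0 = 0 ∧ c 1 = 0 := by
    intro c hc
    rw [hf] at hc
    exact lin0 ha (lin1 hb (hqa _ _) (hq _) hc)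
  have hexpa : ∀ c : Fin 3 → ℚ, exp (T v c).2 ∈ M.closure {a} := by
    intro c
    rw [hs]
    refine cl_exp_add ?_ (hw _ _)
    have := cl_exp_smul (s := {a}) (z := La) (c 0) (by rw [hLa]; exact hacl)
    rwa [Rat.smul_def] at this
  have hz3 : ∀ c : Fin 3 → ℚ, c 0 = 0 → c 1 = 0 → c 2 = 0 → c = 0 := by
    intro c h0 h1 h2
    funext i
    fin_cases i
    · exact h0
    · exact h1
    · exact h2
  rw [hv]
  refine base_of v {a, b} ?_ ?_ ?_ ?_ ?_
  · intro i
    have ha' : a ∈ M.closure {a, b} := cl_self (Or.inl rfl)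
    have hb' : b ∈ M.closure {a, b} := cl_self (Or.inr rfl)
    rw [hvdef]
    fin_cases i
    · exact hb'
    · exact cl_mul ha' hb'
    · exact cl_mul (cl_mul (cl_two _) (cl_I _)) ha'
  · intro i
    have ha' : a ∈ M.closure {a, b} := cl_self (Or.inl rfl)
    rw [hvdef]
    fin_cases i
    · change exp La ∈ _
      rw [hLa]; exact ha'
    · change exp LC ∈ _
      rw [hLC]; exact cl_ratCast _ _
    · exact cl_exp_two_pi_I _
  · intro c hc
    obtain ⟨h0, h1⟩ := hfc c (by rw [hc]; exact cl_zero _)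
    rw [hf, h0, h1, Rat.cast_zero, zero_mul, add_zero, zero_mul, zero_add] at hc
    apply hz3 c h0 h1
    rcases mul_eq_zero.1 hc with h2 | h2
    · exact_mod_cast h2
    · exact absurd h2 (mul_ne_zero (mul_ne_zero two_ne_zero I_ne_zero) ha0)
  · intro c hc
    rw [hs] at hc
    have h0 : c 0 = 0 := exp_coef hLa ha (hw _ c) (by rw [hc, exp_zero]; exact cl_one _)
    rw [h0, Rat.cast_zero, zero_mul, zero_add] at hc
    obtain ⟨h1, h2⟩ := log_indep hLC hC1 hC2 hc
    exact hz3 c h0 h1 h2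
  · intro U hU
    rcases piv U 0 with h0 | ⟨⟨u, hu, hu0⟩, -⟩
    · rcases piv U 1 with h1 | ⟨⟨u, hu, hu1⟩, e1⟩
      · rcases piv U 2 with h2 | ⟨⟨u, hu, hu2⟩, e2⟩
        · rw [finrank_bot_of U fun u hu => hz3 u (h0 u hu) (h1 u hu) (h2 u hu)]
          simp
        · rw [e2, finrank_ker0 U 2 fun u hu h2 => hz3 u (h0 u hu) (h1 u hu) h2]
          refine one_le_rk (co_fst hu) ?_
          intro hcl
          rw [hf, h0 u hu, h1 u hu, hu2] at hcl
          simp only [Rat.cast_zero, zero_mul, add_zero, zero_add, Rat.cast_one, one_mul] at hcl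
          exact ha ((cl_mul_iff (cl_mul (cl_two _) (cl_I _)) (mul_ne_zero two_ne_zero I_ne_zero)).1 hcl)
      · have hnot : (T v u).1 ∉ M.closure {a} := by
          intro hcl
          have := (hfc u hcl).2
          rw [hu1] at this
          exact one_ne_zero this
        rw [e1]
        set U1 := U ⊓ LinearMap.ker (LinearMap.proj (R := ℚ) (φ := fun _ : Fin 3 => ℚ) 1) with hU1
        rcases piv U1 2 with h2 | ⟨⟨u', hu', hu2⟩, e2⟩
        · rw [finrank_bot_of U1 fun w hw => hz3 w (h0 w hw.1) hw.2 (h2 w hw)]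
          exact one_le_rk (co_fst hu) fun hcl => hnot (hba _ hcl)
        · rw [e2, finrank_ker0 U1 2 fun w hw h2 => hz3 w (h0 w hw.1) hw.2 h2]
          have e3 : (T v u').1 = 2 * I * a := by
            rw [hf, h0 u' hu'.1, show u' 1 = 0 from hu'.2, hu2]
            simp
          refine two_le_rk (co_fst hu'.1) (co_fst hu) ?_ ?_
          · rw [e3]
            intro hcl
            exact ha ((cl_mul_iff (cl_mul (cl_two _) (cl_I _))
              (mul_ne_zero two_ne_zero I_ne_zero)).1 hcl)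
          · intro hcl
            apply hnot
            refine cl_le ?_ hcl
            rintro x rfl
            rw [e3]
            exact cl_mul (cl_mul (cl_two _) (cl_I _)) hacl
    · have hd : (finrank ℚ U : ℕ∞) ≤ 2 := by
        have : finrank ℚ U ≤ 2 := by omega
        exact_mod_cast this
      refine hd.trans (two_le_rk (co_exp hu) (co_fst hu) ?_ ?_)
      · intro hcl
        rw [hs] at hcl
        have := exp_coef hLa ha (hw _ u) hcl
        rw [hu0] at this
        exact one_ne_zero this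
      · intro hcl
        have h1 : (T v u).1 ∈ M.closure {a} := by
          refine cl_le ?_ hcl
          rintro x rfl
          exact hexpa u
        have := (hfc u h1).1
        rw [hu0] at this
        exact one_ne_zero this

end Pool.Agent.Helper56.EM
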