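import Pool.Agent.Helper56.EM.B3

/-! The base for `pi ^ e`. -/

set_option autoImplicit false

namespace Pool.Agent.Helper56.EM

open Pool.Agent.Helper35.EM Module Submodule Complex

theorem cl_sub1 {s : Set ℂ} {x w : ℂ} (hx : x ∈ M.closure s) (h : w ∈ M.closure {x}) :
    w ∈ M.closure s := by
  refine cl_le ?_ h
  rintro y rfl
  exact hx

theorem cl_sub2 {s : Set ℂ} {x y w : ℂ} (hx : x ∈ M.closure s) (hy : y ∈ M.closure s)
    (h : w ∈ M.closure {x, y}) : w ∈ M.closure s := by
  refine cl_le ?_ h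
  rintro z (rfl | rfl)
  · exact hx
  · exact hy

theorem cast_one_of {q : ℚ} (h : q = 1) (h' : q = 0) : False := by
  rw [h] at h'; exact one_ne_zero h'

theorem b4 : S_B4 := by
  intro a b l La Lb LB B ha hb hl hLa hLb hLB hB0 hB1 hB2 P hP
  have ha0 : a ≠ 0 := ne_zero_of ha
  have hb0 : b ≠ 0 := ne_zero_of hb
  have hl0 : l ≠ 0 := ne_zero_of hl
  have haa : a ∈ M.closure {a, b} := cl_self (Or.inl rfl)
  have hbb : b ∈ M.closure {a, b} := cl_self (Or.inr rfl)
  have hb1 : b ∈ M.closure {b} := cl_self rfl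
  have hab : a ∉ M.closure {b} := by
    intro h
    have h1 : a ∈ M.closure (insert b ∅) := by rwa [insert_empty_eq]
    have h2 := cl_exch h1 ha
    rw [insert_empty_eq] at h2
    exact hb h2
  have hsub : ∀ {w : ℂ}, w ∈ M.closure {b} → w ∈ M.closure {a, b} := fun h => cl_sub1 hbb h
  have h2I : (2 : ℂ) * I ≠ 0 := mul_ne_zero two_ne_zero I_ne_zero
  have h2Ic : ∀ s : Set ℂ, (2 : ℂ) * I ∈ M.closure s := fun s => cl_mul (cl_two s) (cl_I s)
  have hv : P = span ℚ (Set.range ![(1, La), (l, Lb), (a * l, LB), (2 * I * b, 2 * Real.pi * I)]) := by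
    rw [hP]
    congr 1
    ext p
    simp only [Set.mem_insert_iff, Set.mem_singleton_iff, Matrix.range_cons, Matrix.range_empty,
      Set.union_empty, Set.singleton_union]
  obtain ⟨v, hvdef⟩ : ∃ v : Fin 4 → ℂ × ℂ,
      v = ![(1, La), (l, Lb), (a * l, LB), (2 * I * b, 2 * Real.pi * I)] := ⟨_, rfl⟩
  rw [← hvdef] at hv
  have hf : ∀ c : Fin 4 → ℚ, (T v c).1 = ((c 1 : ℂ) + (c 2 : ℂ) * a) * l +
      ((c 0 : ℂ) + (c 3 : ℂ) * (2 * I * b)) := by
    intro c
    rw [T_apply, Fin.sum_univ_four, hvdef]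
    simp only [Matrix.cons_val_zero, Matrix.cons_val_one, Matrix.cons_val_two, Prod.fst_add,
      Prod.smul_fst, Rat.smul_def, Matrix.tail_cons, Matrix.head_cons, Matrix.cons_val_three]
    ring
  have hs : ∀ c : Fin 4 → ℚ, (T v c).2 = (c 1 : ℂ) * Lb + ((c 0 : ℂ) * La + ((c 2 : ℂ) * LB +
      (c 3 : ℂ) * (2 * Real.pi * I))) := by
    intro c
    rw [T_apply, Fin.sum_univ_four, hvdef]
    simp only [Matrix.cons_val_zero, Matrix.cons_val_one, Matrix.cons_val_two, Prod.snd_add,
      Prod.smul_snd, Rat.smul_def, Matrix.tail_cons, Matrix.head_cons, Matrix.cons_val_three]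
    ring
  have hw : ∀ (s : Set ℂ) (c : Fin 4 → ℚ), exp ((c 2 : ℂ) * LB + (c 3 : ℂ) * (2 * Real.pi * I)) ∈
      M.closure s := fun s c => cl_exp_add (cl_exp_rat hLB _) (cl_exp_pi _)
  have hwa : ∀ (s : Set ℂ) (q : ℚ), a ∈ M.closure s → exp ((q : ℂ) * La) ∈ M.closure s := by
    intro s q h
    have := cl_exp_smul (s := s) (z := La) q (by rw [hLa]; exact h)
    rwa [Rat.smul_def] at this
  have hwb : ∀ (s : Set ℂ) (q : ℚ), b ∈ M.closure s → exp ((q : ℂ) * Lb) ∈ M.closure s := by
    intro s q h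
    have := cl_exp_smul (s := s) (z := Lb) q (by rw [hLb]; exact h)
    rwa [Rat.smul_def] at this
  -- first coordinates
  have hfc : ∀ c : Fin 4 → ℚ, (T v c).1 ∈ M.closure {a, b} → c 1 = 0 ∧ c 2 = 0 := by
    intro c hc
    rw [hf] at hc
    refine lin0 ha (lin1 hl ?_ ?_ hc)
    · exact cl_add (cl_ratCast _ _) (cl_mul (cl_ratCast _ _) haa)
    · exact cl_add (cl_ratCast _ _) (cl_mul (cl_ratCast _ _) (cl_mul (h2Ic _) hbb))
  -- exponentials
  have hexp : ∀ c : Fin 4 → ℚ, exp (T v c).2 ∈ M.closure {a, b} := by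
    intro c
    rw [hs]
    exact cl_exp_add (hwb _ _ hbb) (cl_exp_add (hwa _ _ haa) (hw _ _))
  have hexp0 : ∀ c : Fin 4 → ℚ, c 0 = 0 → exp (T v c).2 ∈ M.closure {b} := by
    intro c h0
    rw [hs, h0, Rat.cast_zero, zero_mul, zero_add]
    exact cl_exp_add (hwb _ _ hb1) (hw _ _)
  have hec1 : ∀ c : Fin 4 → ℚ, exp (T v c).2 ∈ M.closure {a} → c 1 = 0 := by
    intro c hc
    rw [hs] at hc
    exact exp_coef hLb hb (cl_exp_add (hwa _ _ (cl_self rfl)) (hw _ _)) hc
  have hec0 : ∀ c : Fin 4 → ℚ, exp (T v c).2 ∈ M.closure {b} → c 0 = 0 := by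
    intro c hc
    rw [hs, add_left_comm] at hc
    exact exp_coef hLa hab (cl_exp_add (hwb _ _ hb1) (hw _ _)) hc
  have hz4 : ∀ c : Fin 4 → ℚ, c 0 = 0 → c 1 = 0 → c 2 = 0 → c 3 = 0 → c = 0 := by
    intro c h0 h1 h2 h3
    funext i
    fin_cases i
    · exact h0
    · exact h1
    · exact h2
    · exact h3
  have hu3 : ∀ c : Fin 4 → ℚ, c 0 = 0 → c 1 = 0 → c 2 = 0 → c 3 = 1 → (T v c).1 = 2 * I * b := by
    intro c h0 h1 h2 h3
    rw [hf, h0, h1, h2, h3]
    simp
  have h2Ib : ∀ {s : Set ℂ}, 2 * I * b ∈ M.closure s → b ∈ M.closure s := fun h =>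
    (cl_mul_iff (h2Ic _) h2I).1 h
  have h2Ib' : 2 * I * b ∉ M.closure ∅ := fun h => hb (cl_empty_le (h2Ib h))
  have h2Ibc : 2 * I * b ∈ M.closure {b} := cl_mul (h2Ic _) hb1
  rw [hv]
  refine base_of v {a, b, l} ?_ ?_ ?_ ?_ ?_
  · intro i
    have ha' : a ∈ M.closure {a, b, l} := cl_self (Or.inl rfl)
    have hb' : b ∈ M.closure {a, b, l} := cl_self (Or.inr (Or.inl rfl))
    have hl' : l ∈ M.closure {a, b, l} := cl_self (Or.inr (Or.inr rfl))
    rw [hvdef]
    fin_cases i
    · exact cl_one _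
    · exact hl'
    · exact cl_mul ha' hl'
    · exact cl_mul (h2Ic _) hb'
  · intro i
    have ha' : a ∈ M.closure {a, b, l} := cl_self (Or.inl rfl)
    have hb' : b ∈ M.closure {a, b, l} := cl_self (Or.inr (Or.inl rfl))
    rw [hvdef]
    fin_cases i
    · change exp La ∈ _
      rw [hLa]; exact ha'
    · change exp Lb ∈ _
      rw [hLb]; exact hb'
    · change exp LB ∈ _
      rw [hLB]; exact cl_ratCast _ _
    · exact cl_exp_two_pi_I _
  · intro c hc
    obtain ⟨h1, h2⟩ := hfc c (by rw [hc]; exact cl_zero _)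
    rw [hf, h1, h2, Rat.cast_zero, zero_mul, add_zero, zero_mul, zero_add, ← mul_assoc] at hc
    have h3 := lin1 (s := {a}) hb (cl_mul (cl_ratCast _ (c 3)) (h2Ic _)) (cl_ratCast _ (c 0))
      (by rw [add_comm, hc]; exact cl_zero _)
    rw [h3, zero_mul, add_zero] at hc
    refine hz4 c (by exact_mod_cast hc) h1 h2 ?_
    rcases mul_eq_zero.1 h3 with h4 | h4
    · exact_mod_cast h4
    · exact absurd h4 h2I
  · intro c hc
    have h1 : c 1 = 0 := hec1 c (by rw [hc, exp_zero]; exact cl_one _)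
    have h0 : c 0 = 0 := hec0 c (by rw [hc, exp_zero]; exact cl_one _)
    rw [hs, h0, h1, Rat.cast_zero, zero_mul, zero_add, zero_mul, zero_add] at hc
    obtain ⟨h2, h3⟩ := log_indep hLB hB1 hB2 hc
    exact hz4 c h0 h1 h2 h3
  · intro U hU
    set K0 := LinearMap.ker (LinearMap.proj (R := ℚ) (φ := fun _ : Fin 4 => ℚ) 0) with hK0
    set K1 := LinearMap.ker (LinearMap.proj (R := ℚ) (φ := fun _ : Fin 4 => ℚ) 1) with hK1
    set K2 := LinearMap.ker (LinearMap.proj (R := ℚ) (φ := fun _ : Fin 4 => ℚ) 2) with hK2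
    rcases piv U 0 with h0 | ⟨⟨u, hu, hu0⟩, e0⟩
    · rcases piv U 1 with h1 | ⟨⟨u, hu, hu1⟩, e1⟩
      · rcases piv U 2 with h2 | ⟨⟨u, hu, hu2⟩, e2⟩
        · rcases piv U 3 with h3 | ⟨⟨u, hu, hu3'⟩, e3⟩
          · rw [finrank_bot_of U fun u hu => hz4 u (h0 u hu) (h1 u hu) (h2 u hu) (h3 u hu)]
            simp
          · rw [e3, finrank_ker0 U 3 fun u hu h3 => hz4 u (h0 u hu) (h1 u hu) (h2 u hu) h3]
            refine one_le_rk (co_fst hu) ?_
            rw [hu3 u (h0 u hu) (h1 u hu) (h2 u hu) hu3']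
            exact h2Ib'
        · rw [e2, ← hK2]
          have hn : (T v u).1 ∉ M.closure {a, b} := fun h => cast_one_of hu2 (hfc u h).2
          rcases piv (U ⊓ K2) 3 with h3 | ⟨⟨u', hu', hu3'⟩, e3⟩
          · rw [finrank_bot_of (U ⊓ K2) fun w hw => hz4 w (h0 w hw.1) (h1 w hw.1) hw.2 (h3 w hw)]
            exact one_le_rk (co_fst hu) fun h => hn (cl_empty_le h)
          · rw [e3, finrank_ker0 (U ⊓ K2) 3 fun w hw h3 =>
              hz4 w (h0 w hw.1) (h1 w hw.1) hw.2 h3]
            have e4 := hu3 u' (h0 u' hu'.1) (h1 u' hu'.1) hu'.2 hu3'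
            refine two_le_rk (co_fst hu'.1) (co_fst hu) ?_ ?_
            · rw [e4]; exact h2Ib'
            · rw [e4]
              exact fun h => hn (hsub (cl_sub1 h2Ibc h))
      · -- `u 0 = 0`, `u 1 = 1`
        have hn : (T v u).1 ∉ M.closure {a, b} := fun h => cast_one_of hu1 (hfc u h).1
        have hx : exp (T v u).2 ∉ M.closure ∅ := fun h =>
          cast_one_of hu1 (hec1 u (cl_empty_le h))
        have htwo : (2 : ℕ∞) ≤ M.eRk (co (U.map (T v))) := by
          refine two_le_rk (co_exp hu) (co_fst hu) hx ?_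
          exact fun h => hn (cl_sub1 (hexp u) h)
        by_cases hd : finrank ℚ U ≤ 2
        · exact le_trans (by exact_mod_cast hd) htwo
        · have hd3 : finrank ℚ U = 3 := by omega
          rw [hd3]
          rw [e1, ← hK1] at hd3
          rcases piv (U ⊓ K1) 2 with h2 | ⟨⟨u2, hu2, hu22⟩, e2⟩
          · rcases piv (U ⊓ K1) 3 with h3 | ⟨-, e3⟩
            · rw [finrank_bot_of (U ⊓ K1) fun w hw =>
                hz4 w (h0 w hw.1) hw.2 (h2 w hw) (h3 w hw)] at hd3
              omega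
            · rw [e3, finrank_ker0 (U ⊓ K1) 3 fun w hw h3 =>
                hz4 w (h0 w hw.1) hw.2 (h2 w hw) h3] at hd3
              omega
          · rw [e2, ← hK2] at hd3
            rcases piv (U ⊓ K1 ⊓ K2) 3 with h3 | ⟨⟨u3, hu3', hu33⟩, -⟩
            · rw [finrank_bot_of (U ⊓ K1 ⊓ K2) fun w hw =>
                hz4 w (h0 w hw.1.1) hw.1.2 hw.2 (h3 w hw)] at hd3
              omega
            · have e4 := hu3 u3 (h0 u3 hu3'.1.1) hu3'.1.2 hu3'.2 hu33
              have hn2 : (T v u2).1 ∉ M.closure {a, b} := fun h => cast_one_of hu22 (hfc u2 h).2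
              refine three_le_rk (x := (T v u3).1) (y := (T v u2).1) (z := (T v u).1)
                (co_fst hu3'.1.1) (co_fst hu2.1) (co_fst hu) ?_ ?_ ?_
              · rw [e4]; exact h2Ib'
              · rw [e4]
                exact fun h => hn2 (hsub (cl_sub1 h2Ibc h))
              · intro h
                obtain ⟨s, hs'⟩ : ∃ s : Set ℂ, s = {(T v u3).1, (T v u2).1} := ⟨_, rfl⟩
                rw [← hs'] at h
                have m3 : (T v u3).1 ∈ M.closure s := cl_self (by rw [hs']; exact Or.inl rfl)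
                have m2 : (T v u2).1 ∈ M.closure s := cl_self (by rw [hs']; exact Or.inr rfl)
                have mb : b ∈ M.closure s := h2Ib (by rw [← e4]; exact m3)
                have m2Ib : 2 * I * b ∈ M.closure s := cl_mul (h2Ic _) mb
                have mal : a * l ∈ M.closure s := by
                  have e5 : (T v u2).1 = a * l + (u2 3 : ℂ) * (2 * I * b) := by
                    rw [hf, h0 u2 hu2.1, show u2 1 = 0 from hu2.2, hu22]
                    simp
                  have := cl_sub m2 (cl_mul (cl_ratCast _ (u2 3)) m2Ib)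
                  rwa [e5, add_sub_cancel_right] at this
                have ml : l ∈ M.closure s := by
                  have e5 : (T v u).1 = l + ((u 2 : ℂ) * (a * l) + (u 3 : ℂ) * (2 * I * b)) := by
                    rw [hf, h0 u hu, hu1]
                    push_cast
                    ring
                  have := cl_sub h (cl_add (cl_mul (cl_ratCast _ (u 2)) mal)
                    (cl_mul (cl_ratCast _ (u 3)) m2Ib))
                  rwa [e5, add_sub_cancel_right] at this
                have ma : a ∈ M.closure s := by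
                  have := cl_div mal ml
                  rwa [mul_div_cancel_right₀ _ hl0] at this
                -- `s` is in the closure of `a l` and `b`
                have ma' : a ∈ M.closure (insert (a * l) {b}) := by
                  refine cl_le ?_ ma
                  have q1 : a * l ∈ M.closure (insert (a * l) {b}) := cl_self (Or.inl rfl)
                  have q2 : b ∈ M.closure (insert (a * l) {b}) := cl_self (Or.inr rfl)
                  rw [hs']
                  rintro x (rfl | rfl)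
                  · rw [e4]; exact cl_mul (h2Ic _) q2
                  · rw [hf, h0 u2 hu2.1, show u2 1 = 0 from hu2.2, hu22]
                    simp only [Rat.cast_zero, zero_add, Rat.cast_one, one_mul]
                    exact cl_add q1 (cl_mul (cl_ratCast _ _) (cl_mul (h2Ic _) q2))
                have mal' := cl_exch ma' hab
                exact hl ((cl_mul_iff haa ha0).1 mal')
    · -- `u 0 = 1`
      have hxu : exp (T v u).2 ∉ M.closure {b} := fun h => cast_one_of hu0 (hec0 u h)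
      rw [← hK0] at e0
      rcases piv (U ⊓ K0) 1 with h1 | ⟨⟨u', hu', hu1⟩, e1⟩
      · rcases piv (U ⊓ K0) 2 with h2 | ⟨⟨u2, hu2, hu22⟩, e2⟩
        · rcases piv (U ⊓ K0) 3 with h3 | ⟨⟨u3, hu3', hu33⟩, e3⟩
          · rw [e0, finrank_bot_of (U ⊓ K0) fun w hw => hz4 w hw.2 (h1 w hw) (h2 w hw) (h3 w hw)]
            exact one_le_rk (co_exp hu) fun h => hxu (cl_empty_le h)
          · rw [e0, e3, finrank_ker0 (U ⊓ K0) 3 fun w hw h3 =>
              hz4 w hw.2 (h1 w hw) (h2 w hw) h3]
            have e4 := hu3 u3 hu3'.2 (h1 u3 hu3') (h2 u3 hu3') hu33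
            refine two_le_rk (co_fst hu3'.1) (co_exp hu) ?_ ?_
            · rw [e4]; exact h2Ib'
            · rw [e4]
              exact fun h => hxu (cl_sub1 h2Ibc h)
        · have hn2 : (T v u2).1 ∉ M.closure {a, b} := fun h => cast_one_of hu22 (hfc u2 h).2
          rw [← hK2] at e2
          rcases piv (U ⊓ K0 ⊓ K2) 3 with h3 | ⟨⟨u3, hu3', hu33⟩, e3⟩
          · rw [e0, e2, finrank_bot_of (U ⊓ K0 ⊓ K2) fun w hw =>
              hz4 w hw.1.2 (h1 w hw.1) hw.2 (h3 w hw)]
            refine two_le_rk (co_exp hu) (co_fst hu2.1) (fun h => hxu (cl_empty_le h)) ?_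
            exact fun h => hn2 (cl_sub1 (hexp u) h)
          · rw [e0, e2, e3, finrank_ker0 (U ⊓ K0 ⊓ K2) 3 fun w hw h3 =>
              hz4 w hw.1.2 (h1 w hw.1) hw.2 h3]
            have e4 := hu3 u3 hu3'.1.2 (h1 u3 hu3'.1) hu3'.2 hu33
            refine three_le_rk (x := (T v u3).1) (y := exp (T v u).2) (z := (T v u2).1)
              (co_fst hu3'.1.1) (co_exp hu) (co_fst hu2.1) ?_ ?_ ?_
            · rw [e4]; exact h2Ib'
            · rw [e4]
              exact fun h => hxu (cl_sub1 h2Ibc h)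
            · rw [e4]
              exact fun h => hn2 (cl_sub2 (hsub h2Ibc) (hexp u) h)
      · have hd : (finrank ℚ U : ℕ∞) ≤ 3 := by
          have : finrank ℚ U ≤ 3 := by omega
          exact_mod_cast this
        refine hd.trans (three_le_rk (x := exp (T v u').2) (y := exp (T v u).2) (z := (T v u').1)
          (co_exp hu'.1) (co_exp hu) (co_fst hu'.1) ?_ ?_ ?_)
        · exact fun h => cast_one_of hu1 (hec1 u' (cl_empty_le h))
        · exact fun h => hxu (cl_sub1 (hexp0 u' hu'.2) h)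
        · exact fun h => cast_one_of hu1 (hfc u' (cl_sub2 (hexp u') (hexp u) h)).1

end Pool.Agent.Helper56.EM
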